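import Pool.Agent.helper92.BP.Final

/-!
# MP_0fefc4_nt: one of 2, 4, 8, 16 is a profinite limit of good multipliers

Call a positive integer `m` good if `p` and `m (p - 1) + 1` are both prime for infinitely many `p`;
Q1 asks whether `m = 2` is good. There is an absolute constant `E` such that for all positive
integers `m_1, ..., m_4` and every strictly increasing sequence `d_0 ∣ d_1 ∣ ...` of positive
integers there are `1 ≤ i ≤ j ≤ 4` for which the integers `m_i ... m_j d_s / d_r` are good for
pairs `r < s ≤ r + E` with `r` as large as we please.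

With `m_k = 2` for all `k` and quotients `d_(r+1) / d_r` congruent to `1` modulo `r!` this gives
good multipliers congruent to one and the same number `2`, `4`, `8` or `16` modulo every integer.
-/

set_option autoImplicit false

namespace Pool.Agent.Results.MP_0fefc4_nt.BlockProducts

theorem result : ∃ E : ℕ, ∀ m : ℕ → ℕ, (∀ k, 1 ≤ k → k ≤ 4 → 0 < m k) →
    ∀ d : ℕ → ℕ, 0 < d 0 → StrictMono d → (∀ r, d r ∣ d (r + 1)) →
    ∃ i j : ℕ, 1 ≤ i ∧ i ≤ j ∧ j ≤ 4 ∧ ∀ R : ℕ, ∃ r s : ℕ, R ≤ r ∧ r < s ∧ s ≤ r + E ∧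
      {p : ℕ | p.Prime ∧
        ((∏ k ∈ Finset.Icc i j, m k) * (d s / d r) * (p - 1) + 1).Prime}.Infinite :=
  Pool.Agent.helper92.BP.final

end Pool.Agent.Results.MP_0fefc4_nt.BlockProducts
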