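import Pool.Agent.helper31.BVM.C04
import Pool.Agent.helper10.BV.Final

/-!
# MP_0fefc4_nt: `q = a^t (p - 1) + 1` up to a shift, with `t ≤ 4`

Q1 is the case `a = 2`, `t = 1`, `s = s'`. For every `a ≥ 2` and every infinite set `S` of integers there are
`1 ≤ t ≤ j ≤ 4` and `s, s' ∈ S` such that `p` and `a^t (p - 1) + 1 + a^j (s' - s)` are both prime for
infinitely many `p`.
-/

set_option autoImplicit false

namespace Pool.Agent.Results.MP_0fefc4_nt.FourPowers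

theorem result : ∀ a : ℕ, 2 ≤ a → ∀ S : Set ℤ, S.Infinite →
    ∃ t j : ℕ, 1 ≤ t ∧ t ≤ j ∧ j ≤ 4 ∧ ∃ s ∈ S, ∃ s' ∈ S,
      {p : ℕ | p.Prime ∧
        ((a : ℤ) ^ t * ((p : ℤ) - 1) + 1 + (a : ℤ) ^ j * (s' - s)).toNat.Prime}.Infinite :=
  fun a ha S hS => BVM.small_power BVM.bvInput a ha S hS

end Pool.Agent.Results.MP_0fefc4_nt.FourPowers
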