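import Pool.Agent.helper24.BVD.FinMult
import Pool.Agent.helper24.BVD.PD
import Pool.Agent.helper39.MD.Core

/-!
# MP_0fefc4_nt: a positive proportion of all multipliers `m`, and of the multiples of any `k`

Q1 is the multiplier `m = 2`: `2 (p - 1) + 1 = 2 p - 1`. For a positive proportion of all positive
integers `m`, uniformly in the multiples of every `k`, there are infinitely many primes `p` with
`m (p - 1) + 1` prime (and infinitely many with `m (p + 1) - 1` prime).
-/

set_option autoImplicit false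

namespace Pool.Agent.Results.MP_0fefc4_nt.MultiplierDensity

open Classical in
theorem result : ∃ c : ℝ, 0 < c ∧ ∀ k N : ℕ, 0 < k → (k : ℝ) ≤ c * N →
    c * N / k ≤ (((Finset.Icc 1 N).filter (fun m => k ∣ m ∧
      {p : ℕ | p.Prime ∧ (m * (p - 1) + 1).Prime}.Infinite ∧
      {p : ℕ | p.Prime ∧ (m * (p + 1) - 1).Prime}.Infinite)).card : ℝ) := by
  obtain ⟨D, hD, h⟩ := BVD.finMult BVD.pd
  have hfin : ∀ n : ℕ, 0 < n → ∃ d ∈ D, MD39.Good (d * n) := by
    intro n hn
    obtain ⟨d, hd, h1, h2⟩ := h (n : ℚ) (by exact_mod_cast hn)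
    refine ⟨d, hd, MD39.good_of_rep (d * n) ⟨?_, ?_⟩⟩
    · rw [Nat.cast_mul]; exact h1
    · rw [Nat.cast_mul]; exact h2
  obtain ⟨c, hc, hmain⟩ := MD39.density_of_finite MD39.Good D hD hfin
  refine ⟨c, hc, fun k N hk hkN => (hmain k N hk hkN).trans (le_of_eq ?_)⟩
  rw [Nat.cast_inj]
  congr 1
  ext m
  rw [Finset.mem_filter, Finset.mem_filter]
  exact Iff.rfl

end Pool.Agent.Results.MP_0fefc4_nt.MultiplierDensity
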