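import Pool.Agent.helper31.BVM.C06
import Pool.Agent.helper10.BV.Final

/-!
# MP_0fefc4_nt: exponents `t` with infinitely many primes `p` such that `a^t (p - 1) + 1` is prime

Q1 is the case `a = 2`, `t = 1`. For every `a ≥ 2` the set of exponents `t` for which there are infinitely
many such primes `p` has lower Banach density at least `1/4`: every sufficiently long interval of
length `L` contains at least `(1/4 - ε) L` of them. The proof (all in Lean) uses the
Bombieri-Vinogradov theorem, Maynard-Tao weights and a second moment.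
-/

set_option autoImplicit false

namespace Pool.Agent.Results.MP_0fefc4_nt.PowerBanach

open Classical in
theorem result : ∀ a : ℕ, 2 ≤ a → ∀ ε : ℝ, 0 < ε →
    ∃ L₀ : ℕ, ∀ L : ℕ, L₀ ≤ L → ∀ y : ℕ,
      (1 / 4 - ε) * L ≤ (((Finset.Ioc y (y + L)).filter (fun t =>
        {p : ℕ | p.Prime ∧ (a ^ t * (p - 1) + 1).Prime}.Infinite)).card : ℝ) :=
  fun a ha ε hε => BVM.power_banach BVM.bvInput a ha ε hε

end Pool.Agent.Results.MP_0fefc4_nt.PowerBanach
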